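import Pool.Agent.H82.RD.Targets4
import Pool.Agent.H56.PS.FALL
import Pool.Agent.H55.ABR.FIN

/-!
# (FIN4) triples of any height with `rad (x 0) = s`
-/

set_option autoImplicit false

namespace Pool.Agent.H56.RD

open Pool.Agent.H38.RB Pool.Agent.H38.PS Pool.Agent.H82.RD
open Pool.Agent.H56.PS (fall_pd_pos fall_card)

theorem pf_split {x : Fin 3 → ℤ} (hx : Adm x) :
    (pr x).primeFactors = (x 0).natAbs.primeFactors ∪ (x 1 * x 2).natAbs.primeFactors ∧
    Disjoint (x 0).natAbs.primeFactors (x 1 * x 2).natAbs.primeFactors := by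
  have h0 : (x 0).natAbs ≠ 0 := Int.natAbs_ne_zero.2 (hx.1 0)
  have h12 : (x 1 * x 2).natAbs ≠ 0 := Int.natAbs_ne_zero.2 (mul_ne_zero (hx.1 1) (hx.1 2))
  have h1 : pr x = (x 0).natAbs * (x 1 * x 2).natAbs := by
    unfold pr
    rw [mul_assoc, Int.natAbs_mul]
  have hc : IsCoprime (x 0) (x 1 * x 2) :=
    (hx.2.1 0 1 (by decide)).mul_right (hx.2.1 0 2 (by decide))
  have hc2 : Nat.Coprime (x 0).natAbs (x 1 * x 2).natAbs := by
    rw [Int.isCoprime_iff_gcd_eq_one] at hc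
    exact hc
  refine ⟨?_, hc2.disjoint_primeFactors⟩
  rw [h1, Nat.primeFactors_mul h0 h12]

theorem pd_split {x : Fin 3 → ℤ} (hx : Adm x) :
    pd (pr x).primeFactors = pd (x 0).natAbs.primeFactors *
      pd (x 1 * x 2).natAbs.primeFactors := by
  obtain ⟨h1, h2⟩ := pf_split hx
  rw [h1]
  unfold pd
  rw [Finset.prod_union h2]

theorem pf_FIN4 (hSM4 : T_SM4) (hSEL4 : T_SEL4) (hREM2 : T_REM2) (hLGT4 : T_LGT4)
    (hLP4 : T_LP4) (hTLP4 : T_TLP4) : T_FIN4 := by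
  intro ε hε
  obtain ⟨η, hη⟩ : ∃ η : ℝ, η = min (ε / 8) 1 := ⟨_, rfl⟩
  have hη0 : 0 < η := by rw [hη]; exact lt_min (by linarith) one_pos
  have hη8 : 8 * η ≤ ε := by
    have := min_le_left (ε / 8) 1
    rw [← hη] at this
    linarith
  have hη1 : η ≤ 1 := hη ▸ min_le_right _ _
  obtain ⟨δ, K, hδ, hδ1, hK, hsel⟩ := hSEL4 η hη0
  obtain ⟨A, C2, hA, hC2, hP⟩ := hLP4 η δ hη0 hδ
  obtain ⟨C4, hC4, hPS⟩ := hTLP4 η δ η hη0 hδ hη0
  obtain ⟨C1, hC1, hL⟩ := hLGT4 δ η hδ hη0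
  obtain ⟨A', hA'⟩ : ∃ A' : ℝ, A' = max A (2 * K) := ⟨_, rfl⟩
  have hAA : A ≤ A' := hA' ▸ le_max_left _ _
  have hKA : 2 * K ≤ A' := hA' ▸ le_max_right _ _
  obtain ⟨C3, hC3, hS⟩ := hSM4 A' η (hA.trans hAA) hη0
  refine ⟨C3 + (C1 + (C2 + C4)), by positivity, fun s R hs hR => ?_⟩
  have hs1 : (1 : ℝ) ≤ s := by exact_mod_cast hs
  obtain ⟨X, hX⟩ : ∃ X : ℝ, X = s * R := ⟨_, rfl⟩
  have hRX : R ≤ X := by rw [hX]; nlinarith
  have hsX : (s : ℝ) ≤ X := by rw [hX]; nlinarith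
  have hX1 : 1 ≤ X := hR.trans hRX
  have hX0 : 0 < X := by linarith
  have hR0 : 0 < R := by linarith
  have hpdX : ∀ x : Fin 3 → ℤ, Adm x → pd (x 0).natAbs.primeFactors = s →
      (pd (x 1 * x 2).natAbs.primeFactors : ℝ) ≤ R → (pd (pr x).primeFactors : ℝ) ≤ X := by
    intro x hx h0 h1
    rw [pd_split hx, h0, hX]
    push_cast
    exact mul_le_mul_of_nonneg_left h1 (by linarith)
  rw [← hX]
  by_cases hX2 : X < 2
  · have h0 : {x | Adm x ∧ pd (x 0).natAbs.primeFactors = s ∧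
        (pd (x 1 * x 2).natAbs.primeFactors : ℝ) ≤ R} = ∅ := by
      refine Set.eq_empty_of_forall_notMem fun x hx => ?_
      have h1 : (2 : ℝ) ≤ pd (pr x).primeFactors := by
        exact_mod_cast Pool.Agent.H55.ABR.pd_two hx.1
      linarith [hpdX x hx.1 hx.2.1 hx.2.2]
    rw [h0]
    refine ⟨Set.finite_empty, ?_⟩
    rw [Set.ncard_empty, Nat.cast_zero]
    positivity
  have hX2 : 2 ≤ X := not_lt.1 hX2
  have hlX : 0 ≤ Real.log X := Real.log_nonneg hX1
  have hY : 1 ≤ R ^ (1 / 2 + η) := Real.one_le_rpow hR (by linarith)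
  have hZ1 : 1 ≤ X ^ η := Real.one_le_rpow hX1 hη0.le
  have hZX : X ^ η ≤ X := by
    have := Real.rpow_le_rpow_of_exponent_le hX1 hη1
    rwa [Real.rpow_one] at this
  have h1 := hL s _ hs hY
  have h2 := hP s X _ _ hX2 hY hZ1 hZX
  have h3 := hS s X R hX1 hR hRX
  have h4 := hPS s X _ hX2 hY
  -- numbers
  have hRr : R ^ η ≤ X ^ η := Real.rpow_le_rpow hR0.le hRX hη0.le
  have hsr : (s : ℝ) ^ η ≤ X ^ η := Real.rpow_le_rpow (by linarith) hsX hη0.le
  have hR2 : 0 ≤ R ^ (1 / 2 : ℝ) := Real.rpow_nonneg hR0.le _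
  have hmon : ∀ {a : ℝ}, a ≤ ε → X ^ a ≤ X ^ ε := fun h =>
    Real.rpow_le_rpow_of_exponent_le hX1 h
  have hYb : R ^ (1 / 2 + η) ≤ R ^ (1 / 2 : ℝ) * X ^ η := by
    rw [Real.rpow_add hR0]
    exact mul_le_mul_of_nonneg_left hRr hR2
  have e1 : C1 * (R ^ (1 / 2 + η)) ^ (1 + η) * (s : ℝ) ^ η ≤ C1 * (X ^ ε * R ^ (1 / 2 : ℝ)) := by
    have h5 : (R ^ (1 / 2 + η)) ^ (1 + η) ≤ R ^ (1 / 2 : ℝ) * X ^ (3 * η) := by
      have e : (1 / 2 + η) * (1 + η) = 1 / 2 + (3 / 2 * η + η ^ 2) := by ring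
      rw [← Real.rpow_mul hR0.le, e, Real.rpow_add hR0]
      refine mul_le_mul_of_nonneg_left ?_ hR2
      calc R ^ (3 / 2 * η + η ^ 2) ≤ X ^ (3 / 2 * η + η ^ 2) :=
            Real.rpow_le_rpow hR0.le hRX (by positivity)
        _ ≤ X ^ (3 * η) := Real.rpow_le_rpow_of_exponent_le hX1 (by nlinarith)
    have h6 : (R ^ (1 / 2 + η)) ^ (1 + η) * (s : ℝ) ^ η ≤ X ^ ε * R ^ (1 / 2 : ℝ) := by
      calc (R ^ (1 / 2 + η)) ^ (1 + η) * (s : ℝ) ^ η
          ≤ (R ^ (1 / 2 : ℝ) * X ^ (3 * η)) * X ^ η :=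
            mul_le_mul h5 hsr (by positivity) (by positivity)
        _ = X ^ (3 * η + η) * R ^ (1 / 2 : ℝ) := by
            rw [Real.rpow_add hX0]; ring
        _ ≤ _ := mul_le_mul_of_nonneg_right (hmon (by linarith)) hR2
    rw [mul_assoc]
    exact mul_le_mul_of_nonneg_left h6 hC1.le
  have e2 : C2 * R ^ (1 / 2 + η) * X ^ η * X ^ η ≤ C2 * (X ^ ε * R ^ (1 / 2 : ℝ)) := by
    have h6 : R ^ (1 / 2 + η) * X ^ η * X ^ η ≤ X ^ ε * R ^ (1 / 2 : ℝ) := by
      calc R ^ (1 / 2 + η) * X ^ η * X ^ η ≤ R ^ (1 / 2 : ℝ) * X ^ η * X ^ η * X ^ η := by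
            gcongr
        _ = X ^ (η + η + η) * R ^ (1 / 2 : ℝ) := by
            rw [Real.rpow_add hX0, Real.rpow_add hX0]; ring
        _ ≤ _ := mul_le_mul_of_nonneg_right (hmon (by linarith)) hR2
    calc C2 * R ^ (1 / 2 + η) * X ^ η * X ^ η = C2 * (R ^ (1 / 2 + η) * X ^ η * X ^ η) := by ring
      _ ≤ _ := mul_le_mul_of_nonneg_left h6 hC2.le
  have e3 : C3 * R ^ (1 / 2 : ℝ) * X ^ η ≤ C3 * (X ^ ε * R ^ (1 / 2 : ℝ)) := by
    calc C3 * R ^ (1 / 2 : ℝ) * X ^ η = C3 * (X ^ η * R ^ (1 / 2 : ℝ)) := by ring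
      _ ≤ _ := mul_le_mul_of_nonneg_left
          (mul_le_mul_of_nonneg_right (hmon (by linarith)) hR2) hC3.le
  have e4 : C4 * R ^ (1 / 2 + η) * X ^ η ≤ C4 * (X ^ ε * R ^ (1 / 2 : ℝ)) := by
    have h6 : R ^ (1 / 2 + η) * X ^ η ≤ X ^ ε * R ^ (1 / 2 : ℝ) := by
      calc R ^ (1 / 2 + η) * X ^ η ≤ R ^ (1 / 2 : ℝ) * X ^ η * X ^ η := by
            gcongr
        _ = X ^ (η + η) * R ^ (1 / 2 : ℝ) := by
            rw [Real.rpow_add hX0]; ring
        _ ≤ _ := mul_le_mul_of_nonneg_right (hmon (by linarith)) hR2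
    rw [mul_assoc]
    exact mul_le_mul_of_nonneg_left h6 hC4.le
  have key := fall_card (S := {x | Adm x ∧ pd (x 0).natAbs.primeFactors = s ∧
      (pd (x 1 * x 2).natAbs.primeFactors : ℝ) ≤ R}) ?_
    ⟨h3.1, h3.2.trans e3⟩ ⟨h1.1, h1.2.trans e1⟩ ⟨h2.1, h2.2.trans e2⟩ ⟨h4.1, h4.2.trans e4⟩
  · refine ⟨key.1, key.2.trans (le_of_eq ?_)⟩
    ring
  · rintro x ⟨hx, hx0, hx12⟩
    have hpd := hpdX x hx hx0 hx12
    obtain ⟨hsp, hdis⟩ := pf_split hx
    have hTp : ∀ p ∈ (pr x).primeFactors, p.Prime := fun p hp => Nat.prime_of_mem_primeFactors hp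
    have hpd0 : (0 : ℝ) < pd (pr x).primeFactors := Nat.cast_pos.2 (fall_pd_pos hTp)
    have hBp : ∀ p ∈ (x 1 * x 2).natAbs.primeFactors, p.Prime :=
      fun p hp => Nat.prime_of_mem_primeFactors hp
    have hB0 : (0 : ℝ) < pd (x 1 * x 2).natAbs.primeFactors := Nat.cast_pos.2 (fall_pd_pos hBp)
    have hlB : Real.log (pd (x 1 * x 2).natAbs.primeFactors) ≤ Real.log R :=
      Real.log_le_log hB0 hx12
    by_cases hh : Real.log (ht x) ≤ A' * Real.log X
    · exact Or.inl ⟨hx, hx0, hx12, hh⟩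
    · have hh : A' * Real.log X < Real.log (ht x) := not_le.1 hh
      have hAx : A * Real.log X ≤ Real.log (ht x) :=
        le_trans (mul_le_mul_of_nonneg_right hAA hlX) hh.le
      have hl2 : 1 / 2 ≤ Real.log X := by
        have h5 := Real.log_le_log (by norm_num) hX2
        have h6 := Real.log_two_gt_d9
        linarith
      have hKx : K ≤ Real.log (ht x) := by
        have h5 : 2 * K * Real.log X ≤ A' * Real.log X := mul_le_mul_of_nonneg_right hKA hlX
        nlinarith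
      rcases hsel x hx hKx with ⟨E, hE, hEd, hE1, hE2⟩ |
        ⟨a, b, p, E, hab, hb0, ha0, hp, hE, hE1, hE2⟩
      · refine Or.inr (Or.inl ⟨(pr x).primeFactors \ E, ?_, ?_, ?_, hREM2 δ x hx E hE hE1⟩)
        · exact fun p hp => hTp p (Finset.mem_sdiff.1 hp).1
        · have h5 : s.primeFactors = (x 0).natAbs.primeFactors := by
            rw [← hx0]
            exact Nat.primeFactors_prod fun p hp => Nat.prime_of_mem_primeFactors hp
          rw [h5, hsp]
          intro p hp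
          rw [Finset.mem_sdiff]
          exact ⟨Finset.mem_union_left _ hp, fun h => Finset.disjoint_left.1 hEd h hp⟩
        · have h5 : s.primeFactors = (x 0).natAbs.primeFactors := by
            rw [← hx0]
            exact Nat.primeFactors_prod fun p hp => Nat.prime_of_mem_primeFactors hp
          have h6 : ((pr x).primeFactors \ E) \ s.primeFactors =
              (x 1 * x 2).natAbs.primeFactors \ E := by
            rw [h5, hsp]
            ext p
            simp only [Finset.mem_sdiff, Finset.mem_union]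
            constructor
            · rintro ⟨⟨h7 | h7, h8⟩, h9⟩
              · exact absurd h7 h9
              · exact ⟨h7, h8⟩
            · rintro ⟨h7, h8⟩
              exact ⟨⟨Or.inr h7, h8⟩, fun h9 => Finset.disjoint_left.1 hdis h9 h7⟩
          rw [h6]
          have h7 : (0 : ℝ) < pd ((x 1 * x 2).natAbs.primeFactors \ E) := Nat.cast_pos.2
            (fall_pd_pos fun p hp => hBp p (Finset.mem_sdiff.1 hp).1)
          rw [← Real.log_le_log_iff h7 (by positivity), Real.log_rpow hR0]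
          exact hE2.trans (mul_le_mul_of_nonneg_left hlB (by linarith))
      · have hEp : ∀ q ∈ E, q.Prime := fun q hq => Nat.prime_of_mem_primeFactors (hE hq)
        have h5 : (0 : ℝ) < pd E := Nat.cast_pos.2 (fall_pd_pos hEp)
        have h6 : (0 : ℝ) < p := Nat.cast_pos.2 (Nat.prime_of_mem_primeFactors hp).pos
        have hTwo : x ∈ Two4 s X (R ^ (1 / 2 + η)) δ := by
          refine ⟨hx, hx0, hpd, a, b, p, E, hab, hb0, ha0, hp, hE, hE1, ?_⟩
          have h8 : (pd (x 1 * x 2).natAbs.primeFactors : ℝ) ≤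
              R ^ (1 / 2 + η) * p * pd E := by
            rw [← Real.log_le_log_iff hB0 (by positivity), Real.log_mul (by positivity) h5.ne',
              Real.log_mul (by positivity) h6.ne', Real.log_rpow hR0]
            have h7 : (1 / 2 + η) * Real.log (pd (x 1 * x 2).natAbs.primeFactors) ≤
                (1 / 2 + η) * Real.log R := mul_le_mul_of_nonneg_left hlB (by linarith)
            linarith
          rw [pd_split hx, hx0]
          push_cast
          calc (s : ℝ) * (pd (x 1 * x 2).natAbs.primeFactors : ℝ)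
              ≤ s * (R ^ (1 / 2 + η) * p * pd E) := mul_le_mul_of_nonneg_left h8 (by linarith)
            _ = _ := by ring
        by_cases hz : Real.log (ht x) ≤ X ^ η
        · exact Or.inr (Or.inr (Or.inl ⟨hTwo, hAx, hz⟩))
        · have hz := not_le.1 hz
          exact Or.inr (Or.inr (Or.inr ⟨hTwo, hz.le⟩))

end Pool.Agent.H56.RD
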