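import Pool.Agent.H82.RD.Targets
import Pool.Agent.H56.PS.FALL

/-!
# (TFI) the count of the admissible triples with small radical, of any height
-/

set_option autoImplicit false

namespace Pool.Agent.H56.RD

open Pool.Agent.H38.RB Pool.Agent.H38.PS Pool.Agent.H82.RD
open Pool.Agent.H56.PS (fall_pd_pos)

/-- bounds for the size of a set contained in a union of three sets -/
theorem tfi_card {α : Type} {S A B D : Set α} {a b d : ℝ} (h : S ⊆ A ∪ (B ∪ D))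
    (hA : A.Finite ∧ (A.ncard : ℝ) ≤ a) (hB : B.Finite ∧ (B.ncard : ℝ) ≤ b)
    (hD : D.Finite ∧ (D.ncard : ℝ) ≤ d) : S.Finite ∧ (S.ncard : ℝ) ≤ a + (b + d) := by
  have hf := hA.1.union (hB.1.union hD.1)
  refine ⟨hf.subset h, ?_⟩
  have h1 := Set.ncard_le_ncard h hf
  have h2 := Set.ncard_union_le A (B ∪ D)
  have h3 := Set.ncard_union_le B D
  have h4 : S.ncard ≤ A.ncard + (B.ncard + D.ncard) := by omega
  have h5 : (S.ncard : ℝ) ≤ A.ncard + (B.ncard + D.ncard) := by exact_mod_cast h4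
  linarith [hA.2, hB.2, hD.2]

theorem tfi_core (hTLP : T_TLP) (hFA2 : T_FA2) (hSEL3 : T_SEL3)
    (hREM2 : T_REM2) (hLGT2 : T_LGT2) {ε : ℝ} (hε : 0 < ε) :
    ∃ C X₁ : ℝ, 0 < C ∧ 1 ≤ X₁ ∧ ∀ X : ℝ, X₁ ≤ X →
    {x | Adm x ∧ (pd (pr x).primeFactors : ℝ) ≤ X}.Finite ∧
    ({x | Adm x ∧ (pd (pr x).primeFactors : ℝ) ≤ X}.ncard : ℝ) ≤ C * X ^ (2 / 3 + ε) := by
  obtain ⟨η, hη⟩ : ∃ η : ℝ, η = min (ε / 8) 1 := ⟨_, rfl⟩
  have hη0 : 0 < η := by rw [hη]; exact lt_min (by linarith) one_pos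
  have hη8 : 8 * η ≤ ε := by
    have := min_le_left (ε / 8) 1
    rw [← hη] at this
    linarith
  have hη1 : η ≤ 1 := hη ▸ min_le_right _ _
  obtain ⟨δ, K, hδ, hδ1, hK, hsel⟩ := hSEL3 η hη0
  obtain ⟨C4, hC4, hPS⟩ := hTLP η δ η hη0 hδ hη0
  obtain ⟨C1, hC1, hL⟩ := hLGT2 δ η hδ hη0
  obtain ⟨C3, hC3, hS⟩ := hFA2 η η hη0.le hη1 hη0
  refine ⟨C3 + (C1 + C4), max 2 ((max K 1) ^ (1 / η)), by positivity,
    le_trans (by norm_num) (le_max_left _ _), fun X hX => ?_⟩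
  have hX2 : 2 ≤ X := le_trans (le_max_left _ _) hX
  have hX1 : 1 ≤ X := by linarith
  have hX0 : 0 < X := by linarith
  have hKX : K ≤ X ^ η := by
    have h1 := Real.rpow_le_rpow (by positivity) (le_trans (le_max_right _ _) hX) hη0.le
    have h2 : (0 : ℝ) ≤ max K 1 := le_trans (by norm_num) (le_max_right _ _)
    rw [← Real.rpow_mul h2, one_div, inv_mul_cancel₀ hη0.ne', Real.rpow_one] at h1
    exact (le_max_left _ _).trans h1
  have hlX : 0 ≤ Real.log X := Real.log_nonneg hX1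
  have hY : 1 ≤ X ^ (2 / 3 + η) := Real.one_le_rpow hX1 (by linarith)
  have h1 := hL _ hY
  have h3 := hS X hX1
  have h4 := hPS X _ hX2 hY
  have hmon : ∀ {a : ℝ}, a ≤ 2 / 3 + ε → X ^ a ≤ X ^ (2 / 3 + ε) := fun h =>
    Real.rpow_le_rpow_of_exponent_le hX1 h
  have e1 : C1 * (X ^ (2 / 3 + η)) ^ (1 + η) ≤ C1 * X ^ (2 / 3 + ε) := by
    rw [← Real.rpow_mul hX0.le]
    exact mul_le_mul_of_nonneg_left (hmon (by nlinarith)) hC1.le
  have e3 : C3 * X ^ (2 / 3 + η + η) ≤ C3 * X ^ (2 / 3 + ε) :=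
    mul_le_mul_of_nonneg_left (hmon (by linarith)) hC3.le
  have e4 : C4 * X ^ (2 / 3 + η) * X ^ η ≤ C4 * X ^ (2 / 3 + ε) := by
    rw [mul_assoc, ← Real.rpow_add hX0]
    exact mul_le_mul_of_nonneg_left (hmon (by linarith)) hC4.le
  have key := tfi_card (S := {x | Adm x ∧ (pd (pr x).primeFactors : ℝ) ≤ X}) ?_
    ⟨h3.1, h3.2.trans e3⟩ ⟨h1.1, h1.2.trans e1⟩ ⟨h4.1, h4.2.trans e4⟩
  · refine ⟨key.1, key.2.trans (le_of_eq ?_)⟩
    ring
  · rintro x ⟨hx, hpd⟩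
    have hTp : ∀ p ∈ (pr x).primeFactors, p.Prime := fun p hp => Nat.prime_of_mem_primeFactors hp
    have hpd0 : (0 : ℝ) < pd (pr x).primeFactors := Nat.cast_pos.2 (fall_pd_pos hTp)
    have hlpd : Real.log (pd (pr x).primeFactors) ≤ Real.log X := Real.log_le_log hpd0 hpd
    have hht : (0 : ℝ) < ht x := by
      have h5 : 0 < (x 0).natAbs := Int.natAbs_pos.2 (hx.1 0)
      exact Nat.cast_pos.2 (lt_of_lt_of_le h5 (le_max_left _ _))
    by_cases hh : (ht x : ℝ) ≤ Real.exp (X ^ η)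
    · exact Or.inl ⟨hx, hpd, hh⟩
    · have hh : X ^ η ≤ Real.log (ht x) := by
        rw [Real.le_log_iff_exp_le hht]
        exact (not_le.1 hh).le
      rcases hsel x hx (hKX.trans hh) with ⟨E, hE, hE1, hE2⟩ | ⟨a, b, p, E, hab, hp, hE, hE1, hE2⟩
      · refine Or.inr (Or.inl ⟨(pr x).primeFactors \ E, ?_, ?_, hREM2 δ x hx E hE hE1⟩)
        · exact fun p hp => hTp p (Finset.mem_sdiff.1 hp).1
        · have h5 : (0 : ℝ) < pd ((pr x).primeFactors \ E) := Nat.cast_pos.2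
            (fall_pd_pos fun p hp => hTp p (Finset.mem_sdiff.1 hp).1)
          rw [← Real.log_le_log_iff h5 (by positivity), Real.log_rpow hX0]
          exact hE2.trans (mul_le_mul_of_nonneg_left hlpd (by linarith))
      · have hEp : ∀ q ∈ E, q.Prime := fun q hq => Nat.prime_of_mem_primeFactors (hE hq)
        have h5 : (0 : ℝ) < pd E := Nat.cast_pos.2 (fall_pd_pos hEp)
        have h6 : (0 : ℝ) < p := Nat.cast_pos.2 (Nat.prime_of_mem_primeFactors hp).pos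
        have hTwo : x ∈ Two X (X ^ (2 / 3 + η)) δ := by
          refine ⟨hx, hpd, a, b, p, E, hab, hp, hE, hE1, ?_⟩
          rw [← Real.log_le_log_iff hpd0 (by positivity), Real.log_mul (by positivity) h5.ne',
            Real.log_mul (by positivity) h6.ne', Real.log_rpow hX0]
          have h7 : (2 / 3 + η) * Real.log (pd (pr x).primeFactors) ≤
              (2 / 3 + η) * Real.log X := mul_le_mul_of_nonneg_left hlpd (by linarith)
          linarith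
        exact Or.inr (Or.inr ⟨hTwo, hh⟩)

theorem pf_TFI (hTLP : T_TLP) (hFA2 : T_FA2) (hSEL3 : T_SEL3) (hREM2 : T_REM2)
    (hLGT2 : T_LGT2) : T_TFI := by
  intro ε hε
  obtain ⟨C, X₁, hC, hX₁, h⟩ := tfi_core hTLP hFA2 hSEL3 hREM2 hLGT2 hε
  refine ⟨C * X₁ ^ (2 / 3 + ε), by positivity, fun X hX => ?_⟩
  have h1 := h (max X X₁) (le_max_right _ _)
  have hsub : {x | Adm x ∧ (pd (pr x).primeFactors : ℝ) ≤ X} ⊆
      {x | Adm x ∧ (pd (pr x).primeFactors : ℝ) ≤ max X X₁} :=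
    fun x hx => ⟨hx.1, hx.2.trans (le_max_left _ _)⟩
  refine ⟨h1.1.subset hsub, ?_⟩
  have h2 : (({x | Adm x ∧ (pd (pr x).primeFactors : ℝ) ≤ X}.ncard : ℕ) : ℝ) ≤
      ({x | Adm x ∧ (pd (pr x).primeFactors : ℝ) ≤ max X X₁}.ncard : ℕ) :=
    Nat.cast_le.2 (Set.ncard_le_ncard hsub h1.1)
  refine (h2.trans h1.2).trans ?_
  have hX0 : 0 ≤ X := by linarith
  have h3 : max X X₁ ≤ X₁ * X := by
    refine max_le ?_ ?_ <;> nlinarith
  have h4 := Real.rpow_le_rpow (z := 2 / 3 + ε) (by positivity) h3 (by linarith)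
  rw [Real.mul_rpow (by positivity) hX0] at h4
  calc C * max X X₁ ^ (2 / 3 + ε) ≤ C * (X₁ ^ (2 / 3 + ε) * X ^ (2 / 3 + ε)) :=
        mul_le_mul_of_nonneg_left h4 hC.le
    _ = _ := by ring

end Pool.Agent.H56.RD
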