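import Pool.Agent.H82.RD.Targets
import Pool.Agent.H82.RD.Basic

/-!
# (ZJI) coordinates which can be translated arbitrarily are independent
-/

set_option autoImplicit false

open MvPolynomial

namespace Pool.Agent.H56.RD

open Pool.Agent.H82.RD

/-- A polynomial which vanishes at all translates of a point is zero. -/
theorem zji_core {k D σ : Type} [Field k] [Infinite k] [CommRing D] [IsDomain D] [Algebra k D]
    (τ : σ → D) (g : MvPolynomial σ k)
    (h : ∀ v : σ → k, aeval (fun i => τ i + algebraMap k D (v i)) g = 0) : g = 0 := by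
  have hinj : Function.Injective (algebraMap k D) := FaithfulSMul.algebraMap_injective k D
  have hF : aeval (fun i => (C (τ i) + X i : MvPolynomial σ D)) g = 0 := by
    apply MvPolynomial.funext_set (fun _ : σ => Set.range (algebraMap k D))
    · intro _
      exact Set.infinite_range_of_injective hinj
    · intro x hx
      have hx' : ∀ i, ∃ a, algebraMap k D a = x i := fun i => hx i (Set.mem_univ i)
      choose v hv using hx'
      have h1 : ((aeval x : MvPolynomial σ D →ₐ[D] D).restrictScalars k).comp
          (aeval (fun i => (C (τ i) + X i : MvPolynomial σ D))) =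
          aeval (fun i => τ i + algebraMap k D (v i)) := by
        apply algHom_ext
        intro i
        simp [hv]
      have h2 := congrArg (fun φ : MvPolynomial σ k →ₐ[k] D => φ g) h1
      have h3 : (aeval x : MvPolynomial σ D →ₐ[D] D)
          (aeval (fun i => (C (τ i) + X i : MvPolynomial σ D)) g) = 0 := h2.trans (h v)
      rw [map_zero, ← h3, aeval_eq_eval]
  have h1 : ((aeval (fun i => (X i - C (τ i) : MvPolynomial σ D)) :
      MvPolynomial σ D →ₐ[D] MvPolynomial σ D).restrictScalars k).comp
      (aeval (fun i => (C (τ i) + X i : MvPolynomial σ D))) =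
      mapAlgHom (Algebra.ofId k D) := by
    apply algHom_ext
    intro i
    simp
  have h2 := congrArg (fun φ : MvPolynomial σ k →ₐ[k] MvPolynomial σ D => φ g) h1
  have h3 : map (algebraMap k D) g = 0 := by
    have h4 : (aeval (fun i => (X i - C (τ i) : MvPolynomial σ D)) :
        MvPolynomial σ D →ₐ[D] MvPolynomial σ D)
        (aeval (fun i => (C (τ i) + X i : MvPolynomial σ D)) g) = map (algebraMap k D) g := h2
    rw [← h4, hF, map_zero]
  apply map_injective (algebraMap k D) hinj
  rw [h3, map_zero]

theorem pf_ZJI : T_ZJI := by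
  intro k _ _ u p J hp h
  unfold Ind
  have hs : ∀ i : ↥(J.map ⟨some, Option.some_injective _⟩), ∃ j ∈ J, some j = (i : Option (Fin u)) := by
    intro i
    obtain ⟨j, hj, hji⟩ := Finset.mem_map.1 i.2
    exact ⟨j, hj, hji⟩
  choose e he1 he2 using hs
  have hei : Function.Injective e := by
    intro a b hab
    apply Subtype.ext
    rw [← he2 a, ← he2 b, hab]
  rw [algebraicIndependent_iff]
  intro g hg
  have hk : Infinite k := CharZero.infinite k
  have h0 : rename some (rename e g) ∈ p := by
    rw [← Ideal.Quotient.eq_zero_iff_mem, ← hg]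
    have h1 : ((Ideal.Quotient.mkₐ k p).comp (rename some)).comp (rename e) =
        aeval (fun i : ↥(J.map ⟨some, Option.some_injective _⟩) =>
          Ideal.Quotient.mk p (X (i : Option (Fin u)) : PR k u)) := by
      apply algHom_ext
      intro i
      simp [he2]
    exact congrArg (fun φ : MvPolynomial _ k →ₐ[k] (PR k u ⧸ p) => φ g) h1
  refine zji_core (D := PR k u ⧸ p) (fun i : ↥(J.map ⟨some, Option.some_injective _⟩) =>
          Ideal.Quotient.mk p (X (i : Option (Fin u)) : PR k u)) g ?_
  intro v
  obtain ⟨w, hw, hw2⟩ := h (Function.extend e v 0)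
  have h2 := hw2 _ h0
  rw [← Ideal.Quotient.eq_zero_iff_mem] at h2
  rw [← h2]
  have h1 : (((Ideal.Quotient.mkₐ k p).comp (tr w 1)).comp (rename some)).comp (rename e) =
      aeval (fun i : ↥(J.map ⟨some, Option.some_injective _⟩) =>
        Ideal.Quotient.mk p (X (i : Option (Fin u)) : PR k u) +
          algebraMap k (PR k u ⧸ p) (v i)) := by
    apply algHom_ext
    intro i
    have h3 : w (e i) = v i := by
      rw [hw (e i) (he1 i), hei.extend_apply]
    simp only [AlgHom.comp_apply, rename_X, aeval_X]
    rw [tr_some, map_add, Ideal.Quotient.mkₐ_eq_mk, h3, he2]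
    rfl
  exact (congrArg (fun φ : MvPolynomial _ k →ₐ[k] (PR k u ⧸ p) => φ g) h1).symm

end Pool.Agent.H56.RD
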